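import Pool.Agent.H.MP_64e474_co.A

set_option autoImplicit false

namespace Pool.Agent.Results.MP_64e474_co.No
open Pool.Agent.H.MP_64e474_co

theorem result : ∃ (n : ℕ) (H : SimpleGraph (Fin n × Fin n)), (∃ u v, H.Adj u v) ∧ Warm H 4 ∧
    ¬ SimplyConnectedSpace (NC H) :=
  ⟨4, G, ⟨(0, 0), (0, 1), (adj _ _).2 (by decide)⟩, warm, not_sc⟩

end Pool.Agent.Results.MP_64e474_co.No
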